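import Pool.Agent.helper50.MA.SpecF

/-!
# PROJECT ma, module F2: the extended DMA property for continuous sequences
-/

set_option autoImplicit false

open MeasureTheory Set Filter Topology
open scoped ContDiff Real

namespace MAP

noncomputable section

theorem F2_int {X : Type} [TopologicalSpace X] [CompactSpace X] [MeasurableSpace X] [BorelSpace X]
    (ν : Measure X) [IsFiniteMeasure ν] (h : X → ℝ) (hh : Continuous h) : Integrable h ν :=
  hh.integrable_of_hasCompactSupport (HasCompactSupport.of_compactSpace h)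

theorem F2_bound {X : Type} [TopologicalSpace X] [MeasurableSpace X]
    (ν : Measure X) [IsFiniteMeasure ν] (h : X → ℝ) (V e : ℝ) (hV : ν.real univ = V)
    (hb : ∀ x, |h x| ≤ e) : |∫ x, h x ∂ν| ≤ e * V := by
  have h1 := norm_integral_le_of_norm_le_const (μ := ν) (f := h) (C := e)
    (Filter.Eventually.of_forall fun x => by simpa using hb x)
  rw [hV] at h1
  simpa using h1

theorem F2 (h1 : F1_stmt) : F2_stmt := by
  intro X _ _ _ _ _ _ T φ μ hμ hφ v hv hdec h hh
  have hF := (h1 X T).1
  set δ : ℕ → ℝ := fun k => (1 / 2) ^ k with hδ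
  have hδpos : ∀ k, 0 < δ k := fun k => by simp only [hδ]; positivity
  have hδs : ∀ k, 2 * δ (k + 1) = δ k := fun k => by simp only [hδ]; ring
  have hex : ∀ k, ∃ g ∈ T.PS, ∀ x, |g x - (v k x + 3 / 2 * δ k)| ≤ δ k / 2 := fun k =>
    T.richberg _ (T.add_const (v k) (hv k) (3 / 2 * δ k)) (δ k / 2) (by have := hδpos k; linarith)
  choose g hgPS hg using hex
  have hlo : ∀ k x, v k x + δ k ≤ g k x := fun k x => by
    have := (abs_le.mp (hg k x)).1
    linarith
  have hup : ∀ k x, g k x ≤ v k x + 2 * δ k := fun k x => by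
    have := (abs_le.mp (hg k x)).2
    linarith
  have hδ0 : Tendsto δ atTop (𝓝 0) := tendsto_pow_atTop_nhds_zero_of_lt_one (by norm_num) (by norm_num)
  have hgdec : DecTo g φ := by
    constructor
    · intro k x
      have a1 := hup (k + 1) x
      have a2 := hdec.1 k x
      have a3 := hlo k x
      have a4 := hδs k
      linarith
    · intro x
      have e1 : (fun j => ((g j x : ℝ) : EReal)) =
          fun j => ((v j x : ℝ) : EReal) + ((g j x - v j x : ℝ) : EReal) := by
        funext j
        rw [← EReal.coe_add]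
        congr 1
        ring
      rw [e1]
      have e2 : Tendsto (fun j => g j x - v j x) atTop (𝓝 0) := by
        apply squeeze_zero (g := fun j => 2 * δ j)
        · intro j
          have := hlo j x
          have := hδpos j
          linarith
        · intro j
          have := hup j x
          linarith
        · simpa using hδ0.const_mul 2
      have e3 : Tendsto (fun j => ((g j x - v j x : ℝ) : EReal)) atTop (𝓝 ((0 : ℝ) : EReal)) :=
        (continuous_coe_real_ereal.tendsto 0).comp e2
      have e4 := (EReal.continuousAt_add (p := (φ x, ((0 : ℝ) : EReal))) (Or.inr (by simp))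
        (Or.inr (by simp))).tendsto.comp ((hdec.2 x).prodMk_nhds e3)
      have e5 : Tendsto (fun j => ((v j x : ℝ) : EReal) + ((g j x - v j x : ℝ) : EReal)) atTop
          (𝓝 (φ x + ((0 : ℝ) : EReal))) := e4
      rwa [EReal.coe_zero, add_zero] at e5
  have hI := hφ g hgPS hgdec h hh
  rw [Metric.tendsto_atTop] at hI ⊢
  intro ε hε
  obtain ⟨n1, hn1⟩ := hI (ε / 2) (by linarith)
  have hVp := T.V_pos
  obtain ⟨f, hf, C, hC, hfh⟩ := T.dense h hh (ε / (8 * T.V)) (by positivity)
  have hev : ∀ᶠ k in atTop, C * (4 * T.V * (2 * δ k)) < ε / 4 := by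
    have hz : Tendsto (fun k => C * (4 * T.V * (2 * δ k))) atTop (𝓝 0) := by
      have := ((hδ0.const_mul 2).const_mul (4 * T.V)).const_mul C
      simpa using this
    exact hz.eventually_lt_const (by linarith)
  obtain ⟨n2, hn2⟩ := eventually_atTop.mp hev
  refine ⟨max n1 n2, fun k hk => ?_⟩
  have k1 := hn1 k ((le_max_left _ _).trans hk)
  have k2 := hn2 k ((le_max_right _ _).trans hk)
  have hgC := T.ps_c0 (hgPS k)
  have := T.fin (v k) (hv k) (v k) (hv k)
  have := T.fin (g k) hgC (g k) hgC
  have hfC := T.ps_c0 hf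
  have hfc := T.cont f hfC
  have hclose := hF (v k) (hv k) (g k) hgC f hfC (2 * δ k) (fun x => by
    rw [abs_le]
    have a1 := hlo k x
    have a2 := hup k x
    have a3 := hδpos k
    constructor <;> linarith)
  -- splitting
  have hs : ∀ (ν : Measure X) [IsFiniteMeasure ν], ν.real univ = T.V →
      |(∫ x, h x ∂ν) - C * ∫ x, f x ∂ν| ≤ ε / 8 := by
    intro ν _ hν
    have e1 : (∫ x, h x ∂ν) - C * ∫ x, f x ∂ν = ∫ x, (h x - C * f x) ∂ν := by
      rw [integral_sub (F2_int ν h hh) ((F2_int ν f hfc).const_mul C), integral_const_mul]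
    rw [e1]
    have e2 := F2_bound ν (fun x => h x - C * f x) T.V (ε / (8 * T.V)) hν hfh
    have e3 : ε / (8 * T.V) * T.V = ε / 8 := by field_simp
    rw [e3] at e2
    exact e2
  have s1 := hs (T.M (v k) (v k)) (T.mass _ (hv k) _ (hv k))
  have s2 := hs (T.M (g k) (g k)) (T.mass _ hgC _ hgC)
  have s3 : |C * (∫ x, f x ∂T.M (v k) (v k)) - C * ∫ x, f x ∂T.M (g k) (g k)| < ε / 4 := by
    rw [← mul_sub, abs_mul, abs_of_pos hC]
    exact (mul_le_mul_of_nonneg_left hclose hC.le).trans_lt k2
  rw [Real.dist_eq] at k1 ⊢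
  rw [abs_lt] at k1 s3 ⊢
  rw [abs_le] at s1 s2
  constructor <;> linarith [k1.1, k1.2, s1.1, s1.2, s2.1, s2.2, s3.1, s3.2]

end

end MAP
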