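import Pool.Agent.helper50.MA.SpecF

/-!
# PROJECT ma, module F6: step (5)
-/

set_option autoImplicit false

open MeasureTheory Set Filter Topology
open scoped ContDiff Real

namespace MAP

noncomputable section

theorem F6 (h0 : F0_stmt) (h2 : F2_stmt) (h5 : F5_stmt) : F6_stmt := by
  intro X _ _ _ _ _ _ T φ μ cd hφ f hf hdec hneg N hN ε hε
  have hμ := cd.fin
  have hVp := T.V_pos
  -- choice of Λ
  obtain ⟨Λ, hΛ1, hΛ⟩ : ∃ Λ : ℝ, 1 ≤ Λ ∧ (2 / Λ) * (cd.c + 2 * N * T.V) ≤ ε / 2 := by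
    refine ⟨max 1 (4 * |cd.c + 2 * N * T.V| / ε), le_max_left _ _, ?_⟩
    set A := cd.c + 2 * N * T.V with hA
    have hL1 : (1 : ℝ) ≤ max 1 (4 * |A| / ε) := le_max_left _ _
    have hL2 : 4 * |A| / ε ≤ max 1 (4 * |A| / ε) := le_max_right _ _
    set L := max 1 (4 * |A| / ε) with hL
    have hLpos : 0 < L := by linarith
    have h1 : 2 / L * A ≤ 2 / L * |A| := mul_le_mul_of_nonneg_left (le_abs_self A) (by positivity)
    refine h1.trans ?_
    rw [div_mul_eq_mul_div, div_le_iff₀ hLpos]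
    rw [div_le_iff₀ hε] at hL2
    linarith
  set Fc : Set X := {x | Real.exp (-2 * Λ) ≤ cd.S x} with hFc
  have hFcl : IsClosed Fc := isClosed_le continuous_const cd.S_cont
  have hFμ : μ.real Fc = 0 := by
    have h1 : μ Fc = 0 := by
      apply measure_mono_null _ cd.supp
      intro x hx
      exact lt_of_lt_of_le (Real.exp_pos _) hx
    simp [Measure.real, h1]
  have hconv := (h0 X ℕ atTop (fun j => T.M (f j) (f j)) μ (fun j => T.fin _ (hf j) _ (hf j)) hμ
    (fun h hh => h2 X T φ μ hμ hφ f hf hdec h hh)).1 Fc hFcl (ε / 2) (by linarith)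
  obtain ⟨j0, hj0⟩ := eventually_atTop.mp hconv
  refine ⟨j0, fun j hj => ?_⟩
  have hj1 := hj0 j hj
  rw [hFμ] at hj1
  have := T.fin (f j) (hf j) (f j) (hf j)
  set Fl : Set X := {x | cd.S x ≤ Real.exp (-2 * Λ)} with hFl
  set U : Set X := {x | -N < f j x} with hU
  have hUo : IsOpen U := isOpen_lt continuous_const (T.cont _ (hf j))
  have hcover : U ⊆ (U ∩ Fl) ∪ Fc := by
    intro x hx
    by_cases hS : cd.S x ≤ Real.exp (-2 * Λ)
    · exact Or.inl ⟨hx, hS⟩
    · exact Or.inr (not_le.mp hS).le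
  have hc : (fun _ : X => -N) ∈ T.C0 := T.ps_c0 (T.const_ps (-N))
  have hv := T.max_mem (f j) (hf j) _ hc
  set v : X → ℝ := fun x => max (f j x) (-N) with hvdef
  have := T.fin v hv v hv
  have heq : ∀ x ∈ U, f j x = v x := by
    intro x hx
    have hx' : -N < f j x := hx
    rw [hvdef]
    simp only
    rw [max_eq_left hx'.le]
  have hmeas : MeasurableSet (U ∩ Fl) :=
    hUo.measurableSet.inter (isClosed_le cd.S_cont continuous_const).measurableSet
  have hloc1 := T.loc (f j) (hf j) v hv (f j) (hf j) U hUo heq (U ∩ Fl) hmeas inter_subset_left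
  have hloc2 := T.loc (f j) (hf j) v hv v hv U hUo heq (U ∩ Fl) hmeas inter_subset_left
  have hMM : (T.M (f j) (f j)) (U ∩ Fl) = (T.M v v) (U ∩ Fl) := by
    rw [hloc1, T.symm v hv (f j) (hf j), hloc2]
  have h51 := h5 X T μ cd v hv N Λ hN.le hΛ1 (fun x => le_max_right _ _)
    (fun x => max_le (hneg j x) (by linarith))
  have hU1 : (T.M (f j) (f j)).real (U ∩ Fl) ≤ ε / 2 := by
    have e1 : (T.M (f j) (f j)).real (U ∩ Fl) = (T.M v v).real (U ∩ Fl) := by
      unfold Measure.real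
      rw [hMM]
    rw [e1]
    refine (measureReal_mono inter_subset_right).trans (h51.trans hΛ)
  calc (T.M (f j) (f j)).real U ≤ (T.M (f j) (f j)).real ((U ∩ Fl) ∪ Fc) := measureReal_mono hcover
    _ ≤ (T.M (f j) (f j)).real (U ∩ Fl) + (T.M (f j) (f j)).real Fc := measureReal_union_le _ _
    _ ≤ ε := by linarith

end

end MAP
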