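import Pool.Agent.helper50.MA.Spec1

/-!
# PROJECT ma, module B2: quadratic maps of the ball
-/

set_option autoImplicit false

open MeasureTheory Set Filter Topology Complex
open scoped ContDiff Real

namespace MAP

noncomputable section

theorem B2_nsq (x : C2) : nsq x = x.1.re ^ 2 + x.1.im ^ 2 + (x.2.re ^ 2 + x.2.im ^ 2) := by
  unfold nsq
  rw [← Complex.normSq_eq_norm_sq, ← Complex.normSq_eq_norm_sq, Complex.normSq_apply,
    Complex.normSq_apply]
  ring

theorem B2_nonneg (x : C2) : 0 ≤ nsq x := by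
  unfold nsq; positivity

/-- Cauchy-Schwarz -/
theorem B2_cs (z a : C2) : Complex.normSq (hp z a) ≤ nsq z * nsq a := by
  rw [B2_nsq, B2_nsq]
  unfold hp
  rw [Complex.normSq_apply]
  simp only [Complex.add_re, Complex.mul_re, Complex.conj_re, Complex.conj_im, Complex.add_im,
    Complex.mul_im]
  nlinarith [sq_nonneg (z.1.re * a.2.re - z.2.re * a.1.re + (z.1.im * a.2.im - z.2.im * a.1.im)),
    sq_nonneg (z.1.re * a.2.im - z.2.re * a.1.im - z.1.im * a.2.re + z.2.im * a.1.re),
    sq_nonneg (z.1.re * a.2.re - z.1.im * a.2.im - z.2.re * a.1.re + z.2.im * a.1.im),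
    sq_nonneg (z.1.re * a.2.im + z.1.im * a.2.re - z.2.re * a.1.im - z.2.im * a.1.re)]

/-- the basic identity -/
theorem B2_id (z a : C2) (s : ℂ) (hs : s = hp z a) :
    nsq (z - a + s • z) = nsq z * Complex.normSq (1 + s) - 2 * (s + s ^ 2).re + nsq a := by
  have h1 : (s * (1 + s)).re = (s + s ^ 2).re := by ring_nf
  rw [← h1]
  have h2 : (hp z a * (1 + s)).re = (s * (1 + s)).re := by rw [← hs]
  rw [← h2]
  rw [B2_nsq, B2_nsq, B2_nsq]
  unfold hp
  rw [Complex.normSq_apply]
  simp only [Complex.add_re, Complex.mul_re, Complex.conj_re, Complex.conj_im, Complex.add_im,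
    Complex.mul_im, Prod.fst_add, Prod.snd_add, Prod.fst_sub, Prod.snd_sub, Prod.smul_fst,
    Prod.smul_snd, smul_eq_mul, Complex.sub_re, Complex.sub_im, Complex.one_re, Complex.one_im]
  ring

theorem B2_real_smul (r : ℝ) (x : C2) : nsq ((r : ℂ) • x) = r ^ 2 * nsq x := by
  rw [B2_nsq, B2_nsq]
  simp only [Prod.smul_fst, Prod.smul_snd, smul_eq_mul, Complex.mul_re, Complex.mul_im,
    Complex.ofReal_re, Complex.ofReal_im]
  ring

theorem B2_norm_le (x : C2) (r : ℝ) (hr : 0 ≤ r) (h : nsq x ≤ r ^ 2) : ‖x‖ ≤ r := by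
  rw [Prod.norm_def]
  unfold nsq at h
  apply max_le
  · exact abs_le_of_sq_le_sq' (by nlinarith [sq_nonneg ‖x.2‖]) hr |>.2
  · exact abs_le_of_sq_le_sq' (by nlinarith [sq_nonneg ‖x.1‖]) hr |>.2

theorem B2_hp_neg (z a : C2) : hp z (-a) = -hp z a := by
  unfold hp
  simp only [Prod.fst_neg, Prod.snd_neg, map_neg]
  ring

theorem B2_nsq_neg (a : C2) : nsq (-a) = nsq a := by
  unfold nsq
  simp

/-- the value of the norm of `Fa` -/
theorem B2_Fa (z a : C2) :
    nsq (Fa a z) = (1 - 2 * nsq a) ^ 2 * (nsq z * Complex.normSq (1 + hp z a)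
      - 2 * (hp z a + hp z a ^ 2).re + nsq a) := by
  unfold Fa
  rw [B2_real_smul, B2_id z a _ rfl]

theorem B2_poly (t : ℝ) (h0 : 0 ≤ t) (h1 : t ≤ 1 / 4) : (1 - 2 * t) ^ 2 * (1 + 4 * t) ≤ 1 := by
  nlinarith [mul_nonneg h0 h0, mul_nonneg (mul_nonneg h0 h0) (by linarith : (0:ℝ) ≤ 3 - 4 * t)]

/-- the explicit solution of `-a + hp z a • z = h` -/
theorem B2_solve (z h : C2) (hz : nsq z < 1) : ∃ a : C2, -a + hp z a • z = h := by
  set σ := hp z h with hσ
  have h1 : (1 - nsq z) ≠ 0 := by linarith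
  have h2 : (1 + nsq z) ≠ 0 := by linarith [B2_nonneg z]
  set l : ℂ := ⟨-σ.re / (1 - nsq z), -σ.im / (1 + nsq z)⟩ with hl
  refine ⟨-h + l • z, ?_⟩
  have key : hp z (-h + l • z) = l := by
    have e1 : hp z (-h + l • z) = -σ + (starRingEnd ℂ) l * (nsq z : ℝ) := by
      rw [hσ]
      unfold hp nsq
      simp only [Prod.fst_add, Prod.snd_add, Prod.fst_neg, Prod.snd_neg, Prod.smul_fst,
        Prod.smul_snd, smul_eq_mul, map_add, map_neg, map_mul]
      rw [← Complex.normSq_eq_norm_sq, ← Complex.normSq_eq_norm_sq]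
      push_cast
      rw [← Complex.mul_conj, ← Complex.mul_conj]
      ring
    rw [e1]
    apply Complex.ext
    · simp only [Complex.add_re, Complex.neg_re, Complex.mul_re, Complex.conj_re, Complex.conj_im,
        Complex.ofReal_re, Complex.ofReal_im, mul_zero, sub_zero, hl]
      field_simp
      ring
    · simp only [Complex.add_im, Complex.neg_im, Complex.mul_im, Complex.conj_re, Complex.conj_im,
        Complex.ofReal_re, Complex.ofReal_im, mul_zero, zero_add, hl]
      field_simp
      ring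
  rw [key]
  simp

theorem B2_lower (z a : C2) (hz : nsq z ≤ 1) :
    nsq a * (1 - nsq z) ^ 2 ≤ nsq (-a + hp z a • z) := by
  have hcs := B2_cs z a
  have e : nsq (-a + hp z a • z) = nsq a - 2 * (hp z a ^ 2).re
      + nsq z * Complex.normSq (hp z a) := by
    have h2 : (hp z a ^ 2).re = (hp z a * hp z a).re := by ring_nf
    rw [h2]
    set s := hp z a with hs
    have h3 : (s * s).re = (hp z a * s).re := by rw [← hs]
    rw [h3]
    rw [B2_nsq, B2_nsq, B2_nsq]
    unfold hp
    rw [Complex.normSq_apply]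
    simp only [Complex.add_re, Complex.mul_re, Complex.conj_re, Complex.conj_im, Complex.add_im,
      Complex.mul_im, Prod.fst_add, Prod.snd_add, Prod.fst_neg, Prod.snd_neg, Prod.smul_fst,
      Prod.smul_snd, smul_eq_mul, Complex.neg_re, Complex.neg_im]
    ring
  rw [e]
  have h4 : (hp z a ^ 2).re ≤ Complex.normSq (hp z a) := by
    rw [Complex.normSq_apply, pow_two, Complex.mul_re]
    nlinarith [sq_nonneg (hp z a).im]
  have hz0 := B2_nonneg z
  have ha0 := B2_nonneg a
  nlinarith [mul_nonneg (sub_nonneg.mpr hcs) (by linarith : (0:ℝ) ≤ 2 - nsq z)]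

theorem B2 : B2_stmt := by
  refine ⟨?_, ?_, ?_, ?_, ?_⟩
  · intro a
    unfold Fa hp
    fun_prop
  · intro a z ha hz
    rw [B2_Fa]
    set s := hp z a with hs
    have hcs := B2_cs z a
    rw [← hs] at hcs
    have ha0 := B2_nonneg a
    have hz0 := B2_nonneg z
    have h1 : nsq z * Complex.normSq (1 + s) ≤ Complex.normSq (1 + s) := by
      nlinarith [Complex.normSq_nonneg (1 + s)]
    have h2 : Complex.normSq (1 + s) - 2 * (s + s ^ 2).re ≤ 1 + 3 * Complex.normSq s := by
      rw [Complex.normSq_apply, Complex.normSq_apply, pow_two]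
      simp only [Complex.add_re, Complex.add_im, Complex.one_re, Complex.one_im, Complex.mul_re]
      nlinarith [sq_nonneg s.re, sq_nonneg s.im]
    have h3 : Complex.normSq s ≤ nsq a := by nlinarith
    have h4 := B2_poly (nsq a) ha0 ha
    have h5 : nsq z * Complex.normSq (1 + s) - 2 * (s + s ^ 2).re + nsq a ≤ 1 + 4 * nsq a := by
      linarith
    calc (1 - 2 * nsq a) ^ 2 * (nsq z * Complex.normSq (1 + s) - 2 * (s + s ^ 2).re + nsq a)
        ≤ (1 - 2 * nsq a) ^ 2 * (1 + 4 * nsq a) := mul_le_mul_of_nonneg_left h5 (sq_nonneg _)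
      _ ≤ 1 := h4
  · intro a z ha hz
    rw [B2_Fa]
    set s := hp z a with hs
    have hcs := B2_cs z a
    rw [← hs] at hcs
    have ha0 := B2_nonneg a
    have hz0 := B2_nonneg z
    have h3 : Complex.normSq s ≤ nsq a := by nlinarith
    have hpos : 0 < Complex.normSq (1 + s) := by
      apply Complex.normSq_pos.mpr
      intro h
      have : s = -1 := by linear_combination h
      rw [this] at h3
      simp at h3
      linarith
    have h1 : nsq z * Complex.normSq (1 + s) < Complex.normSq (1 + s) := by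
      nlinarith
    have h2 : Complex.normSq (1 + s) - 2 * (s + s ^ 2).re ≤ 1 + 3 * Complex.normSq s := by
      rw [Complex.normSq_apply, Complex.normSq_apply, pow_two]
      simp only [Complex.add_re, Complex.add_im, Complex.one_re, Complex.one_im, Complex.mul_re]
      nlinarith [sq_nonneg s.re, sq_nonneg s.im]
    have h4 := B2_poly (nsq a) ha0 ha
    have h5 : nsq z * Complex.normSq (1 + s) - 2 * (s + s ^ 2).re + nsq a < 1 + 4 * nsq a := by
      linarith
    have h6 : 0 < (1 - 2 * nsq a) ^ 2 := by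
      have : 0 < 1 - 2 * nsq a := by linarith
      positivity
    calc (1 - 2 * nsq a) ^ 2 * (nsq z * Complex.normSq (1 + s) - 2 * (s + s ^ 2).re + nsq a)
        < (1 - 2 * nsq a) ^ 2 * (1 + 4 * nsq a) := mul_lt_mul_of_pos_left h5 h6
      _ ≤ 1 := h4
  · refine ⟨4, by norm_num, ?_⟩
    intro a z ha hz
    have ha0 := B2_nonneg a
    constructor
    · have e : Fa a z + Fa (-a) z - (2 : ℂ) • z = ((-4 * nsq a : ℝ) : ℂ) • z := by
        unfold Fa
        rw [B2_hp_neg, B2_nsq_neg]
        apply Prod.ext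
        · simp only [Prod.fst_add, Prod.fst_sub, Prod.smul_fst, smul_eq_mul, Prod.fst_neg]
          push_cast
          ring
        · simp only [Prod.snd_add, Prod.snd_sub, Prod.smul_snd, smul_eq_mul, Prod.snd_neg]
          push_cast
          ring
      rw [e, norm_smul]
      have h1 : ‖z‖ ≤ 1 := B2_norm_le z 1 zero_le_one (by simpa using hz)
      have h2 : ‖((-4 * nsq a : ℝ) : ℂ)‖ = 4 * nsq a := by
        rw [Complex.norm_real, Real.norm_eq_abs, abs_of_nonpos (by linarith)]
        ring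
      rw [h2]
      nlinarith [norm_nonneg z]
    · intro hz1
      rw [B2_Fa]
      set s := hp z a with hs
      have hcs := B2_cs z a
      rw [← hs, hz1] at hcs
      rw [hz1]
      have h2 : 1 - Complex.normSq s ≤ Complex.normSq (1 + s) - 2 * (s + s ^ 2).re := by
        rw [Complex.normSq_apply, Complex.normSq_apply, pow_two]
        simp only [Complex.add_re, Complex.add_im, Complex.one_re, Complex.one_im, Complex.mul_re]
        nlinarith [sq_nonneg s.re, sq_nonneg s.im]
      have h3 : 1 ≤ 1 * Complex.normSq (1 + s) - 2 * (s + s ^ 2).re + nsq a := by linarith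
      nlinarith [sq_nonneg (1 - 2 * nsq a), mul_le_mul_of_nonneg_left h3
        (sq_nonneg (1 - 2 * nsq a)), sq_nonneg (nsq a)]
  · intro ρ hρ0 hρ1
    have hr : 0 < 1 - ρ ^ 2 := by nlinarith
    refine ⟨4 / (1 - ρ ^ 2) ^ 2, by positivity, ?_⟩
    intro z h hz hh
    have hz1 : nsq z < 1 := by nlinarith
    obtain ⟨a, ha⟩ := B2_solve z h hz1
    have hlow := B2_lower z a hz1.le
    rw [ha] at hlow
    have ha0 := B2_nonneg a
    have hz0 := B2_nonneg z
    have hh0 := B2_nonneg h
    have hsq : (1 - ρ ^ 2) ^ 2 ≤ (1 - nsq z) ^ 2 := by nlinarith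
    have hA : nsq a * (1 - ρ ^ 2) ^ 2 ≤ nsq h :=
      (mul_le_mul_of_nonneg_left hsq ha0).trans hlow
    have hA' : nsq a ≤ 1 / (1 - ρ ^ 2) ^ 2 * nsq h := by
      rw [one_div, inv_mul_eq_div, le_div_iff₀ (by positivity)]
      exact hA
    have h4A : 4 * nsq a ≤ 4 / (1 - ρ ^ 2) ^ 2 * nsq h := by
      calc 4 * nsq a ≤ 4 * (1 / (1 - ρ ^ 2) ^ 2 * nsq h) := by linarith
        _ = 4 / (1 - ρ ^ 2) ^ 2 * nsq h := by ring
    have hnz : ‖z‖ ≤ 1 := B2_norm_le z 1 zero_le_one (by rw [one_pow]; exact hz1.le)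
    have hnh : ‖h‖ ≤ 1 := B2_norm_le h 1 zero_le_one (by rw [one_pow]; exact hh)
    have hc : ‖((-2 * nsq a : ℝ) : ℂ)‖ = 2 * nsq a := by
      rw [Complex.norm_real, Real.norm_eq_abs, abs_of_nonpos (by linarith)]
      ring
    have ha1 := congrArg Prod.fst ha
    have ha2 := congrArg Prod.snd ha
    simp only [Prod.fst_add, Prod.snd_add, Prod.fst_neg, Prod.snd_neg, Prod.smul_fst,
      Prod.smul_snd, smul_eq_mul] at ha1 ha2
    refine ⟨a, by linarith, ?_, ?_⟩
    · have e : Fa a z - (z + h) = ((-2 * nsq a : ℝ) : ℂ) • (z + h) := by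
        unfold Fa
        apply Prod.ext
        · simp only [Prod.fst_add, Prod.fst_sub, Prod.smul_fst, smul_eq_mul]
          rw [← ha1]
          push_cast
          ring
        · simp only [Prod.snd_add, Prod.snd_sub, Prod.smul_snd, smul_eq_mul]
          rw [← ha2]
          push_cast
          ring
      rw [e, norm_smul, hc]
      have h1 : ‖z + h‖ ≤ 2 := (norm_add_le _ _).trans (by linarith)
      nlinarith [norm_nonneg (z + h)]
    · have e : Fa (-a) z - (z - h) = ((-2 * nsq a : ℝ) : ℂ) • (z - h) := by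
        unfold Fa
        rw [B2_hp_neg, B2_nsq_neg]
        apply Prod.ext
        · simp only [Prod.fst_add, Prod.fst_sub, Prod.smul_fst, smul_eq_mul, Prod.fst_neg]
          rw [← ha1]
          push_cast
          ring
        · simp only [Prod.snd_add, Prod.snd_sub, Prod.smul_snd, smul_eq_mul, Prod.snd_neg]
          rw [← ha2]
          push_cast
          ring
      rw [e, norm_smul, hc]
      have h1 : ‖z - h‖ ≤ 2 := (norm_sub_le _ _).trans (by linarith)
      nlinarith [norm_nonneg (z - h)]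

end

end MAP
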